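import Pool.Agent.Helper15.UL.GoalsE

/-! Packet GDS. -/

noncomputable section

namespace UL.PkGDS

open UL MeasureTheory

theorem len_bound (m : ℕ) : ∃ L : ℕ, ∀ σ : Str, Encodable.encode σ < m → σ.length ≤ L := by
  refine ⟨(Finset.range m).sup fun i => (((Encodable.decode i : Option Str).map List.length).getD 0),
    fun σ hσ => ?_⟩
  have h := Finset.le_sup (f := fun i => (((Encodable.decode i : Option Str).map
    List.length).getD 0)) (Finset.mem_range.2 hσ)
  simpa using h

theorem pre_res (x : ℕ → Bool) (L : ℕ) : Pre (res x L) x := by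
  intro i h
  simp [res]

theorem agree {x x' : ℕ → Bool} {L : ℕ} (h : Pre (res x L) x') (i : ℕ) (hi : i < L) :
    x i = x' i := by
  have := h i (by simpa [res] using hi)
  simpa [res] using this

theorem part1 (Q : ℕ → Str → Prop) (y : ℕ → Bool) (s : List ℕ) (x : ℕ → Bool) :
    (∃ σ, cof Q y s σ ∧ Pre σ x) ↔ ¬ ∀ n, Stg (Q n) (stn y s n) x := by
  constructor
  · rintro ⟨σ, ⟨n, hn⟩, hσ⟩ h
    exact hn x hσ (h n)
  · intro h
    push Not at h
    obtain ⟨n, hn⟩ := h
    obtain ⟨L, hL⟩ := len_bound (stn y s n)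
    refine ⟨res x L, ⟨n, ?_⟩, pre_res x L⟩
    rintro x' hx' ⟨σ', h1, h2, h3⟩
    refine hn ⟨σ', h1, h2, ?_⟩
    intro i hi
    rw [h3 i hi, agree hx' i (lt_of_lt_of_le hi (hL σ' h1))]

variable {X : Type} [MeasurableSpace X]

theorem meas_count {y : X → Y} (hy : ∀ i, MeasurableSet {p | y p i = true}) (m : ℕ) :
    ∀ n, MeasurableSet {p | Nat.count (fun i => y p i = true) m = n} := by
  induction m with
  | zero =>
    intro n
    simp only [Nat.count_zero]
    exact MeasurableSet.const _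
  | succ m ih =>
    intro n
    have e : {p | Nat.count (fun i => y p i = true) (m + 1) = n} =
        ({p | y p m = true} ∩ ⋃ k, ({p | Nat.count (fun i => y p i = true) m = k} ∩
          {_p | k + 1 = n})) ∪
        ({p | y p m = true}ᶜ ∩ {p | Nat.count (fun i => y p i = true) m = n}) := by
      ext p
      simp only [Nat.count_succ, Set.mem_union, Set.mem_inter_iff, Set.mem_iUnion,
        Set.mem_compl_iff, Set.mem_ofPred_eq]
      by_cases h : y p m = true
      · simp [h]
      · simp [h]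
    rw [e]
    refine MeasurableSet.union ((hy m).inter (MeasurableSet.iUnion fun k => (ih k).inter ?_))
      ((hy m).compl.inter (ih n))
    exact MeasurableSet.const _

theorem pos_iff (y : Y) (n m : ℕ) :
    pos y n = m ↔ y m = true ∧ Nat.count (fun i => y i = true) m = n := by
  have hinf : (Set.ofPred fun i => y i = true).Infinite := by
    rw [Set.infinite_iff_exists_gt]
    intro a
    obtain ⟨m, h1, h2⟩ := y.2 (a + 1)
    exact ⟨m, h2, by omega⟩
  unfold pos
  constructor
  · rintro rfl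
    refine ⟨Nat.nth_mem_of_infinite hinf n, ?_⟩
    exact Nat.count_nth_of_infinite hinf n
  · rintro ⟨h1, h2⟩
    rw [← h2]
    exact Nat.nth_count (p := fun i => y i = true) h1

theorem meas_stn {y : X → Y} (hy : ∀ i, MeasurableSet {p | y p i = true}) (s : List ℕ)
    (n m : ℕ) : MeasurableSet {p | stn (y p) s n = m} := by
  unfold stn
  cases h : s[n]? with
  | none =>
    simp only [Option.getD_none, pos_iff]
    exact (hy m).inter (meas_count hy m n)
  | some a =>
    simp only [Option.getD_some]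
    exact MeasurableSet.const _

theorem meas_stg {Q : X → ℕ → Str → Prop} (hQ : ∀ n σ, MeasurableSet {p | Q p n σ})
    (n m : ℕ) (σ : Str) : MeasurableSet {p | ∀ x : ℕ → Bool, Pre σ x → ¬ Stg (Q p n) m x} := by
  have e : {p | ∀ x : ℕ → Bool, Pre σ x → ¬ Stg (Q p n) m x} =
      (⋃ σ' : Str, ({_p | ∃ x : ℕ → Bool, Pre σ x ∧ Encodable.encode σ' < m ∧ Pre σ' x} ∩
        {p | Q p n σ'}))ᶜ := by
    ext p
    simp only [Set.mem_compl_iff, Set.mem_iUnion, Set.mem_inter_iff, Set.mem_ofPred_eq, Stg]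
    constructor
    · rintro h ⟨σ', ⟨x, h1, h2, h3⟩, h4⟩
      exact h x h1 ⟨σ', h2, h4, h3⟩
    · rintro h x h1 ⟨σ', h2, h4, h3⟩
      exact h ⟨σ', ⟨x, h1, h2, h3⟩, h4⟩
  rw [e]
  refine (MeasurableSet.iUnion fun σ' => MeasurableSet.inter ?_ (hQ n σ')).compl
  exact MeasurableSet.const _

theorem thm : UL.G_GDS := by
  refine ⟨part1, ?_⟩
  intro X _ Q y hQ hy s σ
  have e : {p | cof (Q p) (y p) s σ} = ⋃ n, ⋃ m, ({p | stn (y p) s n = m} ∩
      {p | ∀ x : ℕ → Bool, Pre σ x → ¬ Stg (Q p n) m x}) := by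
    ext p
    simp only [Set.mem_iUnion, Set.mem_inter_iff, Set.mem_ofPred_eq, cof]
    constructor
    · rintro ⟨n, hn⟩
      exact ⟨n, _, rfl, hn⟩
    · rintro ⟨n, m, h1, h2⟩
      exact ⟨n, by rw [h1]; exact h2⟩
  rw [e]
  exact MeasurableSet.iUnion fun n => MeasurableSet.iUnion fun m =>
    (meas_stn hy s n m).inter (meas_stg hQ n m σ)

end UL.PkGDS
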